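import Pool.Agent.TH117.GN.NCTate

/-!
# The noncommutative Tate conjecture for dg categories generated by abelian varieties with elementary
relations between the Frobenius eigenvalues

Over an algebraic closure of the field with `p` elements each abelian variety is isogenous to the
reduction of an abelian variety of CM type (Honda, Tate). So an abelian variety over the field with
`p ^ a` elements is modelled by `RedAV`: a finite product of CM types `(E i, Φ i)` with Weil numbers
`π i ∈ E i` that satisfy the formula of Shimura and Taniyama; its cohomology of degree `n`, with
coefficients in an algebraically closed field `Ω`, consists of the alternating `n`-forms on
`Ω ⊗ H_1`, on which the Frobenius endomorphism acts by `π`.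

We consider the abelian varieties `Y` that are, over an algebraic closure, isogenous to a product of a
supersingular abelian variety and of powers of the factors of an abelian variety `Z` (any dimension,
any Newton polygons) such that the multiplicative relations between the Frobenius eigenvalues of `Z`,
the square root of the number `q` of elements of the ground field and roots of unity are generated by
relations of the following kinds (`HasElementaryRelations`):

* relations that involve at most two eigenvalues;
* Weil relations of imaginary quadratic fields on products of factors of `Z` of dimension three, four
  or five, or of dimension six if `p` splits in the quadratic field;
* relations between the Frobenius eigenvalues of a product of factors of `Z` of dimension at most five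
  no two of which form an exceptional pair (`IsExceptionalPair`);
* relations between the Frobenius eigenvalues of a product of factors of `Z` of dimension at most
  three, such that any two of these factors whose CM fields have the same Galois closure over `ℚ` are
  isogenous, unless these CM fields are Galois over `ℚ` or one of the two factors is supersingular.

Let `𝒜` be a smooth proper dg category over a finite field whose noncommutative motive is a direct
summand of a finite sum of noncommutative motives of such abelian varieties, for example the dg
category of perfect complexes on a smooth proper variety whose motive is a direct summand of a finite
sum of twists of motives of such abelian varieties, or an admissible subcategory of it. Then the groups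
`G_n(𝒜)`, the Tate modules of `π_{-1} L_{KU} K(𝒜)` over the extensions of degree `n` of the ground
field, vanish for all `n ≥ 1`.

The known results that are used (`IsTheory`) are the algebraicity of the classes in `Alg` (theorems of
Tate and Markman) and the theorem of Thomason that `G_n(Y) = 0` if the Tate conjecture holds for `Y`.
-/

namespace Pool.Agent.Results.MP_de89cc_ag.ElementaryAbelian

open Pool.Agent.TH117.GN.NCTate

/-- The groups `G_n(𝒜)` vanish. -/
theorem result (p : ℕ) [Fact p.Prime] (ν : PadicAlgCl p ≃+* ℂ) (Ω : Type) [Field Ω]
    [IsAlgClosed Ω] [CharZero Ω] (G : ℕ → Type) [∀ n, AddCommGroup (G n)]
    (hG : IsGeneratedNC p ν Ω G) (n : ℕ) (hn : 1 ≤ n) (x : G n) : x = 0 :=
  ncTate hG n hn x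

end Pool.Agent.Results.MP_de89cc_ag.ElementaryAbelian
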